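import Pool.Agent.H80.JD.Basic

set_option autoImplicit false

namespace Pool.Agent.H86.JD
open Finset Filter Topology Pool.Agent.H80.JD

theorem chc : T_CHC := by
  classical
  intro n S x y M J hxy hJM hn hM
  have key : ∀ j : ℕ, j ≤ J → ∃ L ∈ chainsC n M j, (∀ D ∈ L, S (xr x D)) ∧
      ∀ D ∈ zero n :: L, hammingDist (zero n) D ≤ j * M := by
    intro j
    induction j with
    | zero =>
      intro _
      refine ⟨[], by simp [chainsC], by simp, ?_⟩
      intro D hD
      rw [List.mem_singleton] at hD
      rw [hD, hammingDist_self]
      exact Nat.zero_le _
    | succ j ih =>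
      intro hj
      obtain ⟨L, hL, hLS, hLd⟩ := ih (by omega)
      have hmain : (∃ z', Same S x z' ∧ (∀ D' ∈ zero n :: L, M ≤ hammingDist (xr x z') D') ∧
          ∃ D' ∈ zero n :: L, hammingDist (xr x z') D' = M) ∨
          (∃ D' ∈ zero n :: L, hammingDist (xr x y) D' < M) := by
        refine same_ind (S := S) (x := x) (fun z =>
          (∃ z', Same S x z' ∧ (∀ D' ∈ zero n :: L, M ≤ hammingDist (xr x z') D') ∧
          ∃ D' ∈ zero n :: L, hammingDist (xr x z') D' = M) ∨
          (∃ D' ∈ zero n :: L, hammingDist (xr x z) D' < M)) ?_ ?_ hxy
        · right
          refine ⟨zero n, List.mem_cons_self, ?_⟩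
          rw [xr_self, hammingDist_self]
          exact hM
        · intro u z hu huz hP
          rcases hP with h1 | ⟨D', hD', hlt⟩
          · exact Or.inl h1
          · by_cases hall : ∀ D'' ∈ zero n :: L, M ≤ hammingDist (xr x z) D''
            · left
              refine ⟨z, hu.step huz, hall, D', hD', ?_⟩
              have h1 : hammingDist (xr x z) D' ≤
                  hammingDist (xr x z) (xr x u) + hammingDist (xr x u) D' :=
                hammingDist_triangle _ _ _
              have h2 : hammingDist (xr x z) (xr x u) = 1 := by
                rw [hammingDist_xr, hammingDist_comm]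
                exact huz.2.2
              have h3 := hall D' hD'
              omega
            · right
              push Not at hall
              exact hall
      rcases hmain with ⟨z, hz, hz1, D0, hD0, hz2⟩ | ⟨D', hD', hlt⟩
      · have hd0 : hammingDist (zero n) (xr x z) ≤ (j + 1) * M := by
          have h1 : hammingDist (zero n) (xr x z) ≤
              hammingDist (zero n) D0 + hammingDist D0 (xr x z) := hammingDist_triangle _ _ _
          have h2 := hLd D0 hD0
          rw [hammingDist_comm D0, hz2] at h1
          rw [add_mul, one_mul]
          omega
        refine ⟨xr x z :: L, ?_, ?_, ?_⟩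
        · simp only [chainsC, Finset.mem_biUnion, Finset.mem_image, Finset.mem_filter,
            Finset.mem_univ, true_and]
          refine ⟨L, hL, xr x z, ⟨?_, D0, hD0, hz2⟩, rfl⟩
          intro D' hD'
          refine ⟨hz1 D' hD', ?_⟩
          have h1 : hammingDist (xr x z) D' ≤
              hammingDist (xr x z) (zero n) + hammingDist (zero n) D' := hammingDist_triangle _ _ _
          have h2 := hLd D' hD'
          rw [hammingDist_comm (xr x z) (zero n)] at h1
          have h3 : 2 * (j + 1) * M ≤ 2 * J * M := by
            apply Nat.mul_le_mul_right
            omega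
          have h4 : 2 * (j + 1) * M = (j + 1) * M + j * M + M := by ring
          omega
        · intro D hD
          rcases List.mem_cons.1 hD with rfl | hD
          · rw [xr_xr]
            exact hz.right
          · exact hLS D hD
        · intro D hD
          rcases List.mem_cons.1 hD with rfl | hD
          · rw [hammingDist_self]
            exact Nat.zero_le _
          · rcases List.mem_cons.1 hD with rfl | hD
            · exact hd0
            · have := hLd D (List.mem_cons_of_mem _ hD)
              rw [add_mul, one_mul]
              omega
      · exfalso
        have h1 : hammingDist (zero n) (xr x y) ≤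
            hammingDist (zero n) D' + hammingDist D' (xr x y) := hammingDist_triangle _ _ _
        rw [hammingDist_xr_zero, hammingDist_comm D'] at h1
        have h2 := hLd D' hD'
        have h3 : (j + 1) * M ≤ J * M := Nat.mul_le_mul_right _ hj
        rw [add_mul, one_mul] at h3
        omega
  obtain ⟨L, hL, hLS, -⟩ := key J le_rfl
  exact ⟨L, hL, hLS⟩

end Pool.Agent.H86.JD
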