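import Pool.Agent.H80.JD.Basic

set_option autoImplicit false

namespace Pool.Agent.H86.JD
open Finset Filter Topology Pool.Agent.H80.JD

theorem lb1 (hCLT : T_CLT) : T_LB1 := by
  intro κ x hx0 hx1 hκ
  have hsx : 0 < Real.sqrt x := Real.sqrt_pos.2 hx0
  have hκ0 : 0 < κ := hsx.trans hκ
  have hr1 : Tendsto (fun n : ℕ => ((⌈x * n⌉₊ : ℕ) : ℝ) / n) atTop (𝓝 x) :=
    (tendsto_nat_ceil_mul_div_atTop hx0.le).comp tendsto_natCast_atTop_atTop
  have hle : ∀ n : ℕ, ⌈x * n⌉₊ ≤ n := by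
    intro n
    rw [Nat.ceil_le]
    have : (0 : ℝ) ≤ n := Nat.cast_nonneg n
    nlinarith
  have hr2 : Tendsto (fun n : ℕ => ((n - ⌈x * n⌉₊ : ℕ) : ℝ) / n) atTop (𝓝 (1 - x)) := by
    have h1 : Tendsto (fun n : ℕ => 1 - ((⌈x * n⌉₊ : ℕ) : ℝ) / n) atTop (𝓝 (1 - x)) :=
      tendsto_const_nhds.sub hr1
    refine h1.congr' ?_
    filter_upwards [eventually_ne_atTop 0] with n hn
    have hn' : (n : ℝ) ≠ 0 := by exact_mod_cast hn
    rw [Nat.cast_sub (hle n), sub_div, div_self hn']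
  have h1x : 0 < 1 - x := by linarith
  have a1 := hCLT (fun n => ⌈x * n⌉₊) x (Real.sqrt x) hx0 hsx hr1
  rw [div_self hsx.ne'] at a1
  have a2 := hCLT (fun n => n - ⌈x * n⌉₊) (1 - x) κ h1x hκ0 hr2
  have a3 := hCLT (fun n => n - ⌈x * n⌉₊) (1 - x) (κ - Real.sqrt x) h1x (by linarith) hr2
  have a3' : Tendsto (fun n : ℕ => pr (n - ⌈x * n⌉₊) (κ * Real.sqrt n - Real.sqrt x * Real.sqrt n))
      atTop (𝓝 (Φ ((κ - Real.sqrt x) / Real.sqrt (1 - x)))) := by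
    refine a3.congr ?_
    intro n
    rw [sub_mul]
  unfold qB
  exact (a1.mul a2).add ((tendsto_const_nhds.sub a1).mul a3')

end Pool.Agent.H86.JD
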