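import Pool.Agent.H80.JD.Basic

set_option autoImplicit false

namespace Pool.Agent.H86.JD
open Finset Filter Topology Pool.Agent.H80.JD

theorem ra (hRR : T_RR) : T_RA := by
  classical
  intro n M J K hM hK hρ
  set ρ := (K / 2 + 1) * (2 / Real.sqrt M) with hρdef
  have hρ0 : 0 ≤ ρ := by positivity
  set ε := (9 / 10 : ℝ) ^ M with hε
  have hε0 : 0 ≤ ε := by positivity
  have h2n : (0 : ℝ) < 2 ^ n := by positivity
  induction J with
  | zero =>
    intro L hL
    have h1 : ((E (RK K) L).card : ℝ) ≤ 2 ^ n := by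
      have : (E (RK K) L).card ≤ Fintype.card (Fin n → Bool) := Finset.card_le_univ _
      have h3 : Fintype.card (Fin n → Bool) = 2 ^ n := by simp
      rw [h3] at this
      exact_mod_cast this
    have h4 : ((E (RK K) L).card : ℝ) / 2 ^ n ≤ 1 := (div_le_one h2n).2 h1
    rw [pow_zero]
    linarith
  | succ J ih =>
    intro L hL
    simp only [chainsA, Finset.mem_biUnion, Finset.mem_image, Finset.mem_filter,
      Finset.mem_univ, true_and] at hL
    obtain ⟨L', hL', D, hD, rfl⟩ := hL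
    have h1 := hRR n M L' D K hD hM hK
    rw [← hρdef, ← hε] at h1
    have h2 := ih L' hL'
    have h3 : ((E (RK K) (D :: L')).card : ℝ) / 2 ^ n ≤
        ρ * (((E (RK K) L').card : ℝ) / 2 ^ n) + ε := by
      rw [div_le_iff₀ h2n, add_mul, mul_assoc, div_mul_cancel₀ _ h2n.ne', mul_comm ε]
      exact h1
    have h4 : ρ * (((E (RK K) L').card : ℝ) / 2 ^ n) ≤ ρ * (ρ ^ J + 2 * ε) :=
      mul_le_mul_of_nonneg_left h2 hρ0
    have h5 : ρ * ε ≤ 1 / 2 * ε := mul_le_mul_of_nonneg_right hρ hε0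
    rw [pow_succ]
    nlinarith

end Pool.Agent.H86.JD
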